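import Pool.Agent.R554.DO.P_CERT
import Pool.Agent.R554.DO.P_CLS
import Pool.Agent.R554.DO.P_CONV
import Pool.Agent.R554.DO.P_DIM
import Pool.Agent.R554.DO.P_DOM
import Pool.Agent.R554.DO.P_FARK
import Pool.Agent.R554.DO.P_FWD
import Pool.Agent.R554.DO.P_GEN
import Pool.Agent.R554.DO.P_GRID
import Pool.Agent.R554.DO.P_MAX
import Pool.Agent.R554.DO.P_RATL
import Pool.Agent.R554.DO.P_SOUND
import Pool.Agent.R554.DO.P_STAT
import Pool.Agent.R554.DO.P_SUB
import Pool.Agent.R554.DO.P_TRANS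
import Pool.Agent.R554.DO.P_UNIQ
import Pool.Agent.R554.DO.P_UNIQA
import Pool.Agent.R554.DO.P_WSUM
import Pool.Agent.R554.DO.P_PV
import Pool.Agent.R554.DO.P_PS
import Pool.Agent.R554.DO.P_PVEC
import Pool.Agent.R554.DO.P_PR
import Pool.Agent.R554.DO.P_PF
import Pool.Agent.R554.DO.P_PC
import Pool.Agent.R554.DO.P_TR1
import Pool.Agent.R554.DO.P_TR2
import Pool.Agent.R554.DO.P_TV
import Pool.Agent.R554.DO.P_LAW
import Pool.Agent.R554.DO.P_LINK
import Pool.Agent.R554.DO.P_VECN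
import Pool.Agent.R554.DO.P_NEM
import Pool.Agent.R554.DO.P_CHKS
import Pool.Agent.R554.DO.P_DCHK
import Pool.Agent.R554.DO.P_CHKC
import Pool.Agent.R554.DO.P_SIZE

/-!
# The distance-one problem for labelled Markov decision processes is in NP (MP_f8a6ff_lc)
-/

namespace Pool.Agent.Results.MP_f8a6ff_lc.DistanceOneInNP

open Pool.Agent.R554.DO Pool.Agent.NPC

theorem link : S_LINK := t_LINK t_TR1 t_TV t_LAW t_WSUM

theorem sub : S_SUB := t_SUB t_WSUM t_BASIC
theorem back : S_BACK := t_BACK t_BASIC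
theorem dom : S_DOM := t_DOM t_WSUM t_BASIC
theorem mx : S_MAX := t_MAX t_WSUM t_BASIC
theorem gen : S_GEN := t_GEN (t_FWD (t_CLS t_WSUM t_BASIC t_TRANS) mx t_STAT)
  (t_CONV sub back dom) t_DIM (t_UNIQ t_UNIQA) t_EXST
theorem chks : S_CHKS := t_CHKS (t_SOUND mx) t_NEM t_VECN t_TR1
theorem chkc : S_CHKC := t_CHKC (t_RATL gen t_GRID) (t_CERT t_FARK dom sub t_DIM) sub back t_NEM
  t_VECN t_TR1 t_TR2 t_DCHK
theorem pc : S_PC := t_PC t_PV t_PS t_PR (t_PF t_PVEC)

/-- The distance-one problem (is there a memoryless strategy of a given labelled Markov decision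
process, all of whose probabilities are rational numbers written in binary, for which the total
variation distance between the laws of the label sequences of two given initial distributions is
one?) is in `NP`. -/
theorem result : InNPP DistOne := by
  obtain ⟨p, hp⟩ := t_SIZE
  refine inNPP_of (R := chk) pc p fun I => ?_
  constructor
  · rintro ⟨hV, σ, hσ, hPQ⟩
    obtain ⟨c, hb, hc⟩ := chkc I σ hV hσ ((link I σ hV hσ).1 hPQ)
    exact ⟨c, hp I c hb, hc⟩
  · rintro ⟨c, -, hc⟩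
    obtain ⟨hV, σ, hσ, hs⟩ := chks I c hc
    exact ⟨hV, σ, hσ, (link I σ hV hσ).2 hs⟩

end Pool.Agent.Results.MP_f8a6ff_lc.DistanceOneInNP
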